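import Pool.Agent.T2h42.V.Stm

/-!
The block bound for up-closed sets.
-/

set_option autoImplicit false

namespace Pool.Agent.T2h42.V

open Finset
open Pool.Agent.T2h42.R hiding S_BLK S_INJ blk inj
open Pool.Agent.T2h42.Tree (Glc Atom toInt)

open Pool.Agent.T2h42.R.Blk

theorem blk : S_BLK := by
  classical
  intro Λ V o hΛ hV ho hod L₁ L₂ L₃ hsort hatom F K hF r M hr
  have ho0 : 0 < o := hΛ.pos ho
  have hnd : (L₁ ++ L₂ ++ L₃).Nodup := hsort.imp fun h => (ne_of_gt h)
  have hnd3 : L₃.Nodup := (List.nodup_append.1 hnd).2.1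
  have hnd2 : L₂.Nodup := (List.nodup_append.1 (List.nodup_append.1 hnd).1).2.1
  have hat1 : ∀ p ∈ L₁, Atom Λ o p := fun p hp => hatom p (by simp [hp])
  have hat2 : ∀ p ∈ L₂, Atom Λ o p := fun p hp => hatom p (by simp [hp])
  have hat3 : ∀ p ∈ L₃, Atom Λ o p := fun p hp => hatom p (by simp [hp])
  have hlt : ∀ p ∈ L₂, ∀ t ∈ L₃, t < p := fun p hp t ht =>
    (List.pairwise_append.1 hsort).2.2 p (by simp [hp]) t ht
  have h13 : ∀ p ∈ L₁ ++ L₂, p ∉ L₃ := fun p hp hp3 =>
    lt_irrefl _ ((List.pairwise_append.1 hsort).2.2 p hp p hp3)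
  set S := V.filter fun a => r ≤ hits (fun b => F (bits L₁ a ++ b)) L₂ a ∧
      M * L₂.length ≤ (L₃.filter fun p => ¬ p ∣ a).length with hS
  -- the missing atoms
  set D : ℕ → Finset ℕ := fun a => (L₃.filter fun p => ¬ p ∣ a).toFinset with hD
  have hDmem : ∀ a p, p ∈ D a ↔ p ∈ L₃ ∧ ¬ p ∣ a := by
    intro a p; simp [hD]
  have hDcard : ∀ a, (D a).card = (L₃.filter fun p => ¬ p ∣ a).length := fun a =>
    List.toFinset_card_of_nodup (hnd3.filter _)
  set w : Finset ℕ → ℕ := fun T => ∏ t ∈ T, t / o with hw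
  -- facts about `a * w T`
  have hav : ∀ a ∈ Λ, a ∈ Tree.avoid Λ (D a) := by
    intro a ha
    rw [Tree.mem_avoid]
    exact ⟨ha, fun p hp => ((hDmem a p).1 hp).2⟩
  have hDat : ∀ a, ∀ p ∈ D a, Atom Λ o p := fun a p hp => hat3 p ((hDmem a p).1 hp).1
  have hmem : ∀ a ∈ V, ∀ T ⊆ D a, a * w T ∈ V := fun a ha T hT =>
    hV.up a ha _ (hΛ.toggle ho hod (hDat a) (hav a (hV.sub ha)) T hT).1 (Dvd.intro _ rfl)
  have hrec : ∀ a ∈ Λ, ∀ T ⊆ D a, T = (D a).filter fun t => t ∣ a * w T := by
    intro a ha T hT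
    ext t
    rw [Finset.mem_filter]
    constructor
    · intro ht
      refine ⟨hT ht, ?_⟩
      have h1 : t = o * (t / o) := (Nat.mul_div_cancel' (hod t (hDat a t (hT ht)).1)).symm
      rw [h1]
      exact Nat.mul_dvd_mul (hod a ha) (Finset.dvd_prod_of_mem (fun t => t / o) ht)
    · rintro ⟨ht, htd⟩
      by_contra hcon
      exact (hΛ.toggle ho hod (hDat a) (hav a ha) T hT).2 t ht hcon htd
  have hbit : ∀ a ∈ Λ, ∀ T ⊆ D a, ∀ p ∈ L₁ ++ L₂, (p ∣ a ↔ p ∣ a * w T) := by
    intro a ha T hT p hp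
    constructor
    · intro h; exact h.trans (Dvd.intro _ rfl)
    · intro h
      by_contra hcon
      have hp' : Atom Λ o p := hatom p (by simp only [List.mem_append] at hp ⊢; exact Or.inl hp)
      have h1 : p ∉ T := fun hpT => h13 p hp ((hDmem a p).1 (hT hpT)).1
      have h2 : a ∈ Tree.avoid Λ (insert p (D a)) := by
        rw [Tree.mem_avoid]
        refine ⟨ha, fun q hq => ?_⟩
        rcases Finset.mem_insert.1 hq with h3 | h3
        · rw [h3]; exact hcon
        · exact ((hDmem a q).1 h3).2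
      have h3 : ∀ q ∈ insert p (D a), Atom Λ o q := by
        intro q hq
        rcases Finset.mem_insert.1 hq with h3 | h3
        · rw [h3]; exact hp'
        · exact hDat a q h3
      exact (hΛ.toggle ho hod h3 h2 T (hT.trans (Finset.subset_insert _ _))).2 p
        (Finset.mem_insert_self _ _) h1 h
  have hwpos : ∀ a, ∀ T ⊆ D a, 0 < w T := by
    intro a T hT
    refine Finset.prod_pos fun t ht => ?_
    have := hΛ.one_lt ho hod (hDat a t (hT ht))
    omega
  have hbits : ∀ a ∈ Λ, ∀ T ⊆ D a, bits L₁ a = bits L₁ (a * w T) := by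
    intro a ha T hT
    unfold bits
    apply List.map_congr_left
    intro p hp
    have := hbit a ha T hT p (by simp [hp])
    simp only [this]
  -- the pairs
  set P : Finset (Σ _ : ℕ, Finset ℕ) := S.sigma fun a => Finset.powersetCard r (D a) with hP
  set Q : Finset (Σ _ : ℕ, List (Option ℕ)) :=
    V.sigma fun e => codes (fun b => F (bits L₁ e ++ b)) L₂ e with hQ
  have hQcard : Q.card ≤ V.card * (K + 1) ^ L₂.length := by
    rw [hQ, Finset.card_sigma]
    calc ∑ e ∈ V, (codes (fun b => F (bits L₁ e ++ b)) L₂ e).card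
        ≤ ∑ _e ∈ V, (K + 1) ^ L₂.length :=
          Finset.sum_le_sum fun e _ => codes_card L₂ _ e fun b => hF _
      _ = _ := by rw [Finset.sum_const, smul_eq_mul]
  have hPcard : S.card * M ^ r ≤ P.card := by
    rw [hP, Finset.card_sigma]
    calc S.card * M ^ r = ∑ _a ∈ S, M ^ r := by rw [Finset.sum_const, smul_eq_mul]
      _ ≤ _ := by
        refine Finset.sum_le_sum fun a ha => ?_
        rw [Finset.card_powersetCard]
        apply pow_le_choose
        rw [hS, Finset.mem_filter] at ha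
        rw [hDcard]
        exact (Nat.mul_le_mul_left M (ha.2.1.trans (hits_le _ _ _))).trans ha.2.2
  refine hPcard.trans (le_trans ?_ hQcard)
  refine Finset.card_le_card_of_injOn
    (fun x => ⟨x.1 * w x.2, code (fun b => F (bits L₁ x.1 ++ b)) L₂ x.1⟩) ?_ ?_
  · rintro ⟨a, T⟩ hx
    simp only [hP, hQ, Finset.coe_sigma, Set.mem_sigma_iff, Finset.mem_coe,
      Finset.mem_powersetCard] at hx ⊢
    obtain ⟨ha, hT, hTc⟩ := hx
    have haV : a ∈ V := (Finset.mem_filter.1 ha).1
    have haΛ : a ∈ Λ := hV.sub haV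
    refine ⟨hmem a haV T hT, ?_⟩
    rw [← hbits a haΛ T hT]
    exact code_mem L₂ _ a _ fun p hp => hbit a haΛ T hT p (by simp [hp])
  · rintro ⟨a, T⟩ hx ⟨a', T'⟩ hx' heq
    simp only [hP, Finset.coe_sigma, Set.mem_sigma_iff, Finset.mem_coe,
      Finset.mem_powersetCard] at hx hx'
    obtain ⟨ha, hT, hTc⟩ := hx
    obtain ⟨ha', hT', hTc'⟩ := hx'
    simp only [Sigma.mk.injEq] at heq
    obtain ⟨heq1, heq2⟩ := heq
    have hcode := eq_of_heq heq2
    have haS := Finset.mem_filter.1 ha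
    have haS' := Finset.mem_filter.1 ha'
    have haΛ := hV.sub haS.1
    have haΛ' := hV.sub haS'.1
    set H := hitl (fun b => F (bits L₁ a ++ b)) L₂ a with hH
    have hHlen : r ≤ H.length := by
      rw [hH, hitl_length]; exact haS.2.1
    have hHsub : H.Sublist L₂ := hitl_sublist _ _ _
    have hHnd : H.Nodup := hHsub.nodup hnd2
    have hHne : H.toFinset.Nonempty := by
      rw [List.toFinset_nonempty_iff]
      intro h0
      rw [h0] at hHlen
      simp at hHlen
      omega
    -- divisibility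
    have hdiv : ∀ p ∈ H.toFinset, ((p / o : ℕ) : ℤ) ∣ (w T : ℤ) - w T' := by
      intro p hp
      rw [List.mem_toFinset] at hp
      have hpL : p ∈ L₂ := hHsub.subset hp
      have hpa : ¬ p ∣ a := hitl_not_dvd _ _ _ p hp
      have hd := code_eq L₂ _ _ a a' hcode p hp
      have hg := hΛ.gcd_eq haΛ (hat2 p hpL) hpa
      obtain ⟨p', hp'⟩ := hod p (hat2 p hpL).1
      obtain ⟨a₁, ha₁⟩ := hod a haΛ
      have hpo : p / o = p' := by rw [hp', Nat.mul_div_cancel_left _ ho0]
      rw [hpo]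
      have hcop : Nat.Coprime p' a₁ := by
        rw [hp', ha₁, Nat.gcd_mul_left] at hg
        have : o * Nat.gcd p' a₁ = o * 1 := by rw [hg, mul_one]
        exact Nat.eq_of_mul_eq_mul_left ho0 this
      have h1 : (p : ℤ) ∣ (a : ℤ) * ((w T : ℤ) - w T') := by
        have h2 : (a : ℤ) * w T = a' * w T' := by exact_mod_cast heq1
        have h3 : (a : ℤ) * ((w T : ℤ) - w T') = -(((a : ℤ) - a') * w T') := by
          rw [mul_sub, h2]; ring
        rw [h3]
        exact (hd.mul_right _).neg_right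
      rw [hp', ha₁] at h1
      push_cast at h1
      rw [mul_assoc] at h1
      have h4 : (p' : ℤ) ∣ (a₁ : ℤ) * ((w T : ℤ) - w T') :=
        Int.dvd_of_mul_dvd_mul_left (by exact_mod_cast ho0.ne') h1
      exact (Int.isCoprime_iff_gcd_eq_one.2 (by simpa using hcop)).dvd_of_dvd_mul_left h4
    have hcopr : ((H.toFinset : Finset ℕ) : Set ℕ).Pairwise
        (fun p q => IsCoprime (((p / o : ℕ)) : ℤ) ((q / o : ℕ) : ℤ)) := by
      intro p hp q hq hpq
      have hp2 := hHsub.subset (List.mem_toFinset.1 hp)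
      have hq2 := hHsub.subset (List.mem_toFinset.1 hq)
      exact Nat.isCoprime_iff_coprime.2 (hΛ.coprime ho hod (hat2 p hp2) (hat2 q hq2) hpq)
    have hprod : (∏ p ∈ H.toFinset, ((p / o : ℕ) : ℤ)) ∣ (w T : ℤ) - w T' :=
      Finset.prod_dvd_of_coprime hcopr hdiv
    -- size
    obtain ⟨p₀, hp₀, hmin⟩ := Finset.exists_min_image H.toFinset id hHne
    have hp₀L : p₀ ∈ L₂ := hHsub.subset (List.mem_toFinset.1 hp₀)
    have hp₀1 : 1 < p₀ / o := hΛ.one_lt ho hod (hat2 p₀ hp₀L)
    have hbig : (p₀ / o) ^ r ≤ ∏ p ∈ H.toFinset, (p / o) := by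
      calc (p₀ / o) ^ r ≤ (p₀ / o) ^ H.toFinset.card := by
            apply Nat.pow_le_pow_right (by omega)
            rw [List.toFinset_card_of_nodup hHnd]
            exact hHlen
        _ ≤ _ := by
            apply Finset.pow_card_le_prod
            intro p hp
            exact Nat.div_le_div_right (hmin p hp)
    have hsmall : ∀ b, ∀ T ⊆ D b, T.card = r → w T < (p₀ / o) ^ r := by
      intro b T hT hTc
      have h1 : w T ≤ (p₀ / o - 1) ^ r := by
        rw [← hTc]
        apply Finset.prod_le_pow_card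
        intro t ht
        have ht3 := ((hDmem b t).1 (hT ht)).1
        have h2 := hlt p₀ hp₀L t ht3
        have h3 : t / o < p₀ / o := by
          obtain ⟨u, hu⟩ := hod t (hat3 t ht3).1
          obtain ⟨v, hv⟩ := hod p₀ (hat2 p₀ hp₀L).1
          rw [hu, hv, Nat.mul_div_cancel_left _ ho0, Nat.mul_div_cancel_left _ ho0]
          rw [hu, hv] at h2
          exact Nat.lt_of_mul_lt_mul_left h2
        omega
      exact h1.trans_lt (Nat.pow_lt_pow_left (by omega) (by omega))
    have hm := hsmall a T hT hTc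
    have hm' := hsmall a' T' hT' hTc'
    have hwT := hwpos a T hT
    have hwT' := hwpos a' T' hT'
    have hmm : w T = w T' := by
      have h1 : ((∏ p ∈ H.toFinset, (p / o) : ℕ) : ℤ) ∣ (w T : ℤ) - w T' := by
        push_cast at hprod ⊢
        exact hprod
      have h2 : |(w T : ℤ) - w T'| < ((∏ p ∈ H.toFinset, (p / o) : ℕ) : ℤ) := by
        have h3 : ((p₀ / o) ^ r : ℕ) ≤ (∏ p ∈ H.toFinset, (p / o) : ℕ) := hbig
        rw [abs_lt]
        constructor <;> · zify at hm hm' h3 hwT hwT'; push_cast at *; linarith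
      have h4 := Int.eq_zero_of_abs_lt_dvd h1 h2
      have h5 : (w T : ℤ) = w T' := by linarith
      exact_mod_cast h5
    have haa : a = a' := by
      rw [← hmm] at heq1
      exact Nat.eq_of_mul_eq_mul_right hwT heq1
    subst haa
    have hTT : T = T' := by
      rw [hrec a haΛ T hT, hrec a haΛ T' hT', hmm]
    rw [hTT]

end Pool.Agent.T2h42.V
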