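import Pool.Agent.T2h42.V.Stm

/-!
Few members have many hits.
-/

set_option autoImplicit false

namespace Pool.Agent.T2h42.V

open Finset
open Pool.Agent.T2h42.R hiding S_BLK S_INJ blk inj
open Pool.Agent.T2h42.Tree (Glc Atom toInt)

theorem inj (h : S_BLK) : S_INJ := by
  intro δ₀ K hδ₀
  set δ : ℝ := min δ₀ 1 with hδdef
  have hδ : 0 < δ := lt_min hδ₀ one_pos
  have hδ1 : δ ≤ 1 := min_le_right _ _
  set s : ℕ := ⌈8 / δ⌉₊ with hs
  have hs8 : 8 / δ ≤ s := Nat.le_ceil _
  set B : ℕ := K + 2 with hB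
  set M : ℕ := B ^ s with hM
  have hM1 : 1 ≤ M := Nat.one_le_pow _ _ (by omega)
  have hMr : (1 : ℝ) ≤ M := by exact_mod_cast hM1
  set κ : ℝ := δ * Real.log 2 / (8 * M) with hκdef
  have hl2 : 0 < Real.log 2 := Real.log_pos (by norm_num)
  have hκ : 0 < κ := by positivity
  refine ⟨κ / 2, max (max ⌈16 / κ ^ 2⌉₊ ⌈8 * M / δ⌉₊) 1, by positivity, ?_⟩
  intro Λ V o hΛ hV ho hod L hL hat hm F hF
  set m : ℕ := L.length with hmdef
  have hm1 : ⌈16 / κ ^ 2⌉₊ ≤ m := (le_trans (le_max_left _ _) (le_max_left _ _)).trans hm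
  have hm2 : ⌈8 * M / δ⌉₊ ≤ m := (le_trans (le_max_right _ _) (le_max_left _ _)).trans hm
  have hm3 : 1 ≤ m := (le_max_right _ _).trans hm
  have hm1' : 16 / κ ^ 2 ≤ (m : ℝ) := Nat.ceil_le.1 hm1
  have hm2' : 8 * M / δ ≤ (m : ℝ) := Nat.ceil_le.1 hm2
  have hmpos : (0 : ℝ) < m := by exact_mod_cast hm3
  set W : ℕ := ⌊δ * m / (8 * M)⌋₊ with hW
  have hWle : (W : ℝ) ≤ δ * m / (8 * M) := Nat.floor_le (by positivity)
  have hWge : δ * m / (8 * M) < W + 1 := Nat.lt_floor_add_one _
  have hW1 : 1 ≤ W := by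
    rw [hW]
    apply Nat.le_floor
    rw [Nat.cast_one, le_div_iff₀ (by positivity)]
    rw [div_le_iff₀ hδ] at hm2'
    linarith
  have hWr : (1 : ℝ) ≤ W := by exact_mod_cast hW1
  have hMW : (M : ℝ) * W ≤ δ * m / 8 := by
    rw [le_div_iff₀ (by positivity)] at hWle
    linarith
  have hWm : (W : ℝ) ≤ M * W := by nlinarith
  set J : ℕ := m / W with hJ
  have hJW : J * W ≤ m := Nat.div_mul_le_self m W
  have hJW' : m ≤ J * W + W := by
    have := Nat.lt_div_mul_add (a := m) (b := W) (by omega)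
    rw [hJ]; omega
  have hJm : J ≤ m := Nat.div_le_self m W
  set r : ℕ := ⌈δ / 4 * W⌉₊ with hr
  have hr1 : 1 ≤ r := Nat.one_le_iff_ne_zero.2 (by
    rw [hr]
    have : 0 < δ / 4 * (W : ℝ) := by positivity
    exact (Nat.ceil_pos.2 this).ne')
  have hrge : δ / 4 * W ≤ r := Nat.le_ceil _
  -- exponent
  have hsr : 2 * W ≤ s * r := by
    have h1 : (2 : ℝ) * W ≤ s * r := by
      have h2 : 8 / δ * (δ / 4 * W) ≤ s * r :=
        mul_le_mul hs8 hrge (by positivity) (by positivity)
      have h3 : 8 / δ * (δ / 4 * W) = 2 * W := by field_simp; ring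
      linarith
    exact_mod_cast h1
  -- one block
  set S : ℕ → Finset ℕ := fun j => V.filter fun a => r ≤ blkHits F L W j a ∧
    M * W ≤ aft L W j a with hS
  have hblock : ∀ j < J, (S j).card * 2 ^ W ≤ V.card := by
    intro j hj
    have hjW : j * W + W ≤ m := by
      have : (j + 1) * W ≤ J * W := Nat.mul_le_mul_right W hj
      have h2 : (j + 1) * W = j * W + W := by ring
      omega
    have hlen : ((L.drop (j * W)).take W).length = W := by
      rw [List.length_take, List.length_drop]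
      omega
    have h1 := h Λ V o hΛ hV ho hod (L.take (j * W)) ((L.drop (j * W)).take W)
      (L.drop ((j + 1) * W)) (by rw [split3]; exact hL) (by rw [split3]; exact hat) F (K + 1)
      (fun b => (hF b).trans (by omega)) r M hr1
    rw [hlen] at h1
    have h2 : (S j).card * M ^ r ≤ V.card * B ^ W := h1
    have h3 : B ^ (2 * W) ≤ M ^ r := by
      rw [hM, ← pow_mul]
      exact Nat.pow_le_pow_right (by omega) hsr
    have h4 : (S j).card * B ^ W * B ^ W ≤ V.card * B ^ W := by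
      calc (S j).card * B ^ W * B ^ W = (S j).card * B ^ (2 * W) := by
            rw [two_mul, pow_add, mul_assoc]
        _ ≤ (S j).card * M ^ r := Nat.mul_le_mul_left _ h3
        _ ≤ _ := h2
    have h5 : (S j).card * B ^ W ≤ V.card :=
      Nat.le_of_mul_le_mul_right h4 (Nat.pow_pos (by omega))
    exact (Nat.mul_le_mul_left _ (Nat.pow_le_pow_left (by omega) W)).trans h5
  -- covering
  have hcov : (V.filter fun a => δ₀ * m ≤ (hits F L a : ℝ)) ⊆ (Finset.range J).biUnion S := by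
    intro a ha
    rw [Finset.mem_filter] at ha
    rw [Finset.mem_biUnion]
    rcases good_block F L W M a J (δ / 4) (by positivity) hJW hJW' with ⟨j, hj, h1, h2⟩ | h1
    · refine ⟨j, Finset.mem_range.2 hj, ?_⟩
      rw [hS, Finset.mem_filter]
      exact ⟨ha.1, Nat.ceil_le.2 h1, h2⟩
    · exfalso
      have h2 : δ * m ≤ δ₀ * m := mul_le_mul_of_nonneg_right (min_le_left _ _) hmpos.le
      have h3 := ha.2
      have h4 : 0 < δ * m := by positivity
      linarith
  have hcard : (V.filter fun a => δ₀ * m ≤ (hits F L a : ℝ)).card * 2 ^ W ≤ m * V.card := by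
    calc (V.filter fun a => δ₀ * m ≤ (hits F L a : ℝ)).card * 2 ^ W
        ≤ (∑ j ∈ Finset.range J, (S j).card) * 2 ^ W :=
          Nat.mul_le_mul_right _ ((Finset.card_le_card hcov).trans Finset.card_biUnion_le)
      _ = ∑ j ∈ Finset.range J, (S j).card * 2 ^ W := Finset.sum_mul _ _ _
      _ ≤ ∑ j ∈ Finset.range J, V.card :=
          Finset.sum_le_sum fun j hj => hblock j (Finset.mem_range.1 hj)
      _ = J * V.card := by rw [Finset.sum_const, Finset.card_range, smul_eq_mul]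
      _ ≤ m * V.card := Nat.mul_le_mul_right _ hJm
  have hcard' : ((V.filter fun a => δ₀ * m ≤ (hits F L a : ℝ)).card : ℝ) * 2 ^ W ≤
      m * V.card := by exact_mod_cast hcard
  have hgr := growth κ hκ m W hm1' (by
    have h1 : κ * m = δ * m / (8 * M) * Real.log 2 := by
      rw [hκdef]; field_simp
    rw [h1]
    nlinarith)
  have h2W : (0 : ℝ) < 2 ^ W := by positivity
  have hfin : ((V.filter fun a => δ₀ * m ≤ (hits F L a : ℝ)).card : ℝ) * 2 ^ W ≤
      V.card * Real.exp (-(κ / 2 * m)) * 2 ^ W := by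
    calc ((V.filter fun a => δ₀ * m ≤ (hits F L a : ℝ)).card : ℝ) * 2 ^ W ≤ m * V.card := hcard'
      _ ≤ 2 ^ W * Real.exp (-(κ / 2 * m)) * V.card :=
          mul_le_mul_of_nonneg_right hgr (Nat.cast_nonneg _)
      _ = _ := by ring
  exact le_of_mul_le_mul_right hfin h2W

end Pool.Agent.T2h42.V
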