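import Pool.Agent.T2h42.V.Boot
import Pool.Agent.T2h42.V.Blk
import Pool.Agent.T2h42.V.Inj

/-!
The final form: sums of elements of subsets of up-closed parts of sets closed under gcd and lcm.
-/

set_option autoImplicit false

namespace Pool.Agent.T2h42.V

open Finset
open Pool.Agent.T2h42.R hiding S_BLK S_INJ blk inj CL phase dense boot base claim
open Pool.Agent.T2h42.Tree
open scoped Pointwise

/-- one summand -/
theorem one_step (ε : ℝ) (hε : 0 < ε) (hε1 : ε ≤ 1) : ∃ γ C : ℝ, 0 < γ ∧ 0 ≤ C ∧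
    ∀ Λ V : Finset ℕ, Glc Λ → Up Λ V → ∀ A : Finset ℤ, (∀ a ∈ A, a.natAbs ∈ V) → A.Nonempty →
      ∀ B : Finset ℤ, B.Nonempty →
        (1 - ε) * Real.log A.card - γ * (Real.log V.card - Real.log A.card) +
          (1 - ε) * Real.log B.card - C ≤ Real.log ((A + B).card : ℝ) := by
  have hlog2 : 0 < Real.log 2 := Real.log_pos (by norm_num)
  obtain ⟨γ, C, hγ, hC, hcl⟩ := claim split e1 e3 (inj blk) (e := ε) (ε := ε) hε hε hε1
  refine ⟨γ + ε, C + (1 + γ) * Real.log 2, by linarith, ?_, ?_⟩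
  · have : 0 ≤ (1 + γ) * Real.log 2 := mul_nonneg (by linarith) hlog2.le
    linarith
  intro Λ V hΛ hV A hAV hA B hB
  have cA : (0 : ℝ) < A.card := by exact_mod_cast hA.card_pos
  -- one of the signs
  obtain ⟨σ, hσ', hbig⟩ : ∃ σ : ℤ, (σ = 1 ∨ σ = -1) ∧
      A.card ≤ 2 * (A.filter fun a => 0 < σ * a).card := by
    have h2 : A.card = (A.filter fun a => 0 < (1 : ℤ) * a).card +
        (A.filter fun a => 0 < (-1 : ℤ) * a).card := by
      rw [← Finset.card_filter_add_card_filter_not (s := A) fun a => 0 < (1 : ℤ) * a]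
      congr 1
      congr 1
      refine Finset.filter_congr fun a ha => ?_
      have ha0 : a ≠ 0 := by
        rintro rfl
        exact absurd (hΛ.pos (hV.sub (hAV 0 ha))) (by simp)
      constructor
      · intro h; omega
      · intro h; omega
    rcases le_total (A.filter fun a => 0 < (1 : ℤ) * a).card
      (A.filter fun a => 0 < (-1 : ℤ) * a).card with h3 | h3
    · exact ⟨-1, Or.inr rfl, by omega⟩
    · exact ⟨1, Or.inl rfl, by omega⟩
  have hσ : σ * σ = 1 := by rcases hσ' with rfl | rfl <;> norm_num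
  set S := A.filter fun a => 0 < σ * a with hS
  set Q : Finset ℕ := S.image Int.natAbs with hQ
  have hval : ∀ a ∈ S, σ * (a.natAbs : ℤ) = a := by
    intro a ha
    have h4 := (Finset.mem_filter.1 ha).2
    rcases hσ' with rfl | rfl
    · rw [one_mul] at h4 ⊢
      exact Int.natAbs_of_nonneg h4.le
    · rw [neg_one_mul] at h4 ⊢
      rw [Int.ofNat_natAbs_of_nonpos (by linarith)]
      ring
  have hQc : Q.card = S.card := by
    refine Finset.card_image_of_injOn fun a ha b hb hab => ?_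
    rw [← hval a ha, ← hval b hb]
    exact congrArg (fun n : ℕ => σ * (n : ℤ)) hab
  have hQpos : 0 < Q.card := by
    rw [hQc]
    have := hA.card_pos
    omega
  have hQn : Q.Nonempty := Finset.card_pos.1 hQpos
  have hQV : Q ⊆ V := by
    intro a ha
    obtain ⟨b, hb, rfl⟩ := Finset.mem_image.1 ha
    exact hAV b (Finset.mem_filter.1 hb).1
  have cQ : (0 : ℝ) < Q.card := by exact_mod_cast hQpos
  have hAQ : (A.card : ℝ) ≤ 2 * Q.card := by rw [hQc]; exact_mod_cast hbig
  have hlogQ : Real.log A.card ≤ Real.log Q.card + Real.log 2 := by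
    have h4 := Real.log_le_log cA hAQ
    rw [Real.log_mul (by norm_num) cQ.ne'] at h4
    linarith
  have hBn : (B.image fun b => σ * b).Nonempty := hB.image _
  have hσinj : Function.Injective fun b : ℤ => σ * b := fun a b hab => by
    have h1 : σ * (σ * a) = σ * (σ * b) := congrArg (σ * ·) hab
    rwa [← mul_assoc, ← mul_assoc, hσ, one_mul, one_mul] at h1
  have hBc : (B.image fun b => σ * b).card = B.card := Finset.card_image_of_injective _ hσinj
  obtain ⟨μ, f1, f2, f3⟩ := hcl Λ V hΛ hV Q hQV hQn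
  have g1 := f3 _ hBn
  have g2 := e2 Q μ f1 _ hBn
  rw [hBc] at g1 g2
  have cB : (0 : ℝ) < B.card := by exact_mod_cast hB.card_pos
  have hsum : ((toInt Q + B.image fun b => σ * b).card : ℝ) ≤ ((A + B).card : ℝ) := by
    have : (toInt Q + B.image fun b => σ * b).card ≤ (A + B).card := by
      refine Finset.card_le_card_of_injOn (fun z => σ * z) ?_ hσinj.injOn
      intro z hz
      rw [Finset.mem_coe, Finset.mem_add] at hz
      obtain ⟨u, hu, v, hv, rfl⟩ := hz
      obtain ⟨a, ha, rfl⟩ := mem_toInt.1 hu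
      obtain ⟨b, hb, rfl⟩ := Finset.mem_image.1 hv
      obtain ⟨s, hs, rfl⟩ := Finset.mem_image.1 ha
      rw [Finset.mem_coe]
      have e : σ * ((s.natAbs : ℤ) + σ * b) = s + b := by
        rw [mul_add, hval s hs, ← mul_assoc, hσ, one_mul]
      show σ * ((s.natAbs : ℤ) + σ * b) ∈ A + B
      rw [e]
      exact Finset.add_mem_add (Finset.mem_filter.1 hs).1 hb
    exact_mod_cast this
  have cS : (0 : ℝ) < (toInt Q + B.image fun b => σ * b).card := by
    exact_mod_cast ((toInt_nonempty hQn).add hBn).card_pos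
  rw [Real.log_div cS.ne' cB.ne'] at g2
  have g3 := Real.log_le_log cS hsum
  have g4 : (1 + γ) * Real.log A.card ≤ (1 + γ) * (Real.log Q.card + Real.log 2) :=
    mul_le_mul_of_nonneg_left hlogQ (by linarith)
  nlinarith

/-- the sums -/
def sums {k : ℕ} (A : Fin k → Finset ℤ) (B : Finset ℤ) : Finset ℤ :=
  ((Fintype.piFinset A) ×ˢ B).image fun x => (∑ i, x.1 i) + x.2

theorem sums_succ {k : ℕ} (A : Fin (k + 1) → Finset ℤ) (B : Finset ℤ) :
    sums (fun i => A i.succ) (A 0 + B) ⊆ sums A B := by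
  intro z hz
  unfold sums at hz ⊢
  rw [Finset.mem_image] at hz ⊢
  obtain ⟨⟨f, y⟩, hf, rfl⟩ := hz
  rw [Finset.mem_product, Fintype.mem_piFinset, Finset.mem_add] at hf
  obtain ⟨h1, a, ha, b, hb, hab⟩ := hf
  refine ⟨(Fin.cons a f, b), ?_, ?_⟩
  · rw [Finset.mem_product, Fintype.mem_piFinset]
    refine ⟨fun i => ?_, hb⟩
    refine Fin.cases ?_ (fun j => ?_) i
    · simpa using ha
    · simpa using h1 j
  · have hab' : a + b = y := hab
    show (∑ i, (Fin.cons a f : Fin (k + 1) → ℤ) i) + b = (∑ i, f i) + y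
    rw [Fin.sum_univ_succ, ← hab']
    simp only [Fin.cons_zero, Fin.cons_succ]
    ring

theorem sums_nonempty {k : ℕ} {A : Fin k → Finset ℤ} {B : Finset ℤ} (hA : ∀ i, (A i).Nonempty)
    (hB : B.Nonempty) : (sums A B).Nonempty :=
  ((Fintype.piFinset_nonempty.2 hA).product hB).image _

theorem card_two {A : Finset ℤ} {V : Finset ℕ} (h : ∀ a ∈ A, a.natAbs ∈ V) :
    A.card ≤ 2 * V.card := by
  have h1 : A ⊆ (V.image fun n : ℕ => (n : ℤ)) ∪ V.image fun n : ℕ => -(n : ℤ) := by
    intro a ha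
    rw [Finset.mem_union, Finset.mem_image, Finset.mem_image]
    rcases Int.natAbs_eq a with h2 | h2
    · exact Or.inl ⟨_, h a ha, h2.symm⟩
    · exact Or.inr ⟨_, h a ha, h2.symm⟩
  have h2 := (Finset.card_le_card h1).trans (Finset.card_union_le _ _)
  have h3 : (V.image fun n : ℕ => (n : ℤ)).card ≤ V.card := Finset.card_image_le
  have h4 : (V.image fun n : ℕ => -(n : ℤ)).card ≤ V.card := Finset.card_image_le
  omega

theorem iterate {ε γ C : ℝ} (hε : 0 ≤ ε) (hγ : 0 ≤ γ) (hC : γ * Real.log 2 ≤ C)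
    (h : ∀ Λ V : Finset ℕ, Glc Λ → Up Λ V → ∀ A : Finset ℤ, (∀ a ∈ A, a.natAbs ∈ V) →
      A.Nonempty → ∀ B : Finset ℤ, B.Nonempty →
        (1 - ε) * Real.log A.card - γ * (Real.log V.card - Real.log A.card) +
          (1 - ε) * Real.log B.card - C ≤ Real.log ((A + B).card : ℝ)) :
    ∀ k : ℕ, k * ε ≤ 1 → ∀ (A : Fin k → Finset ℤ) (Λ V : Fin k → Finset ℕ) (B : Finset ℤ),
      (∀ i, Glc (Λ i)) → (∀ i, Up (Λ i) (V i)) → (∀ i, ∀ a ∈ A i, a.natAbs ∈ V i) →
      (∀ i, (A i).Nonempty) → B.Nonempty →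
      ∑ i, ((1 - k * ε) * Real.log (A i).card -
        γ * (Real.log (V i).card - Real.log (A i).card) - C) +
        (1 - k * ε) * Real.log B.card ≤ Real.log ((sums A B).card : ℝ) := by
  intro k
  induction k with
  | zero =>
    intro _ A Λ V B _ _ _ hA hB
    have hs : B ⊆ sums A B := by
      intro b hb
      unfold sums
      rw [Finset.mem_image]
      refine ⟨(fun i => i.elim0, b), ?_, by simp⟩
      rw [Finset.mem_product, Fintype.mem_piFinset]
      exact ⟨fun i => i.elim0, hb⟩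
    have cB : (0 : ℝ) < B.card := by exact_mod_cast hB.card_pos
    have := Real.log_le_log cB (by exact_mod_cast Finset.card_le_card hs :
      (B.card : ℝ) ≤ (sums A B).card)
    simpa using this
  | succ k ih =>
    intro hk A Λ V B hΛ hV hAV hA hB
    push_cast at hk
    have hk0 : (0 : ℝ) ≤ k := by positivity
    have hkε : (k : ℝ) * ε ≤ 1 := by nlinarith
    have hkε0 : 0 ≤ (k : ℝ) * ε := by positivity
    have h1 := ih hkε (fun i => A i.succ) (fun i => Λ i.succ) (fun i => V i.succ) (A 0 + B)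
      (fun i => hΛ _) (fun i => hV _) (fun i => hAV _) (fun i => hA _) ((hA 0).add hB)
    have h2 := h (Λ 0) (V 0) (hΛ 0) (hV 0) (A 0) (hAV 0) (hA 0) B hB
    have hne := sums_nonempty (fun i => hA i.succ) ((hA 0).add hB)
    have c1 : (0 : ℝ) < (sums (fun i => A i.succ) (A 0 + B)).card := by
      exact_mod_cast hne.card_pos
    have h3 := Real.log_le_log c1 (by exact_mod_cast Finset.card_le_card (sums_succ A B) :
      ((sums (fun i => A i.succ) (A 0 + B)).card : ℝ) ≤ (sums A B).card)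
    refine le_trans ?_ (h1.trans h3)
    rw [Fin.sum_univ_succ]
    set x := Real.log (A 0).card
    set z := Real.log (V 0).card
    set b := Real.log B.card
    have hx0 : 0 ≤ x := Real.log_natCast_nonneg _
    have hb0 : 0 ≤ b := Real.log_natCast_nonneg _
    have hxz : x ≤ z + Real.log 2 := by
      have h4 := card_two (hAV 0)
      have cA : (0 : ℝ) < (A 0).card := by exact_mod_cast (hA 0).card_pos
      have h5 : ((A 0).card : ℝ) ≤ 2 * (V 0).card := by exact_mod_cast h4
      have cV : (0 : ℝ) < (V 0).card := by linarith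
      have h6 := Real.log_le_log cA h5
      rw [Real.log_mul (by norm_num) cV.ne'] at h6
      linarith
    -- the part of the members in the sets with positive index
    have h4 : ∑ i : Fin k, ((1 - (k + 1 : ℕ) * ε) * Real.log (A i.succ).card -
        γ * (Real.log (V i.succ).card - Real.log (A i.succ).card) - C) ≤
        ∑ i : Fin k, ((1 - k * ε) * Real.log (A i.succ).card -
        γ * (Real.log (V i.succ).card - Real.log (A i.succ).card) - C) := by
      refine Finset.sum_le_sum fun i _ => ?_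
      have : 0 ≤ Real.log (A i.succ).card := Real.log_natCast_nonneg _
      push_cast
      nlinarith
    have h5 := mul_le_mul_of_nonneg_left h2 (by linarith : 0 ≤ 1 - (k : ℝ) * ε)
    push_cast at h4 ⊢
    have h6 : 0 ≤ (k : ℝ) * ε * (ε * x) := by positivity
    have h7 : 0 ≤ (k : ℝ) * ε * (ε * b) := by positivity
    have h8 : 0 ≤ (k : ℝ) * ε * (γ * (z - x) + C) := by
      apply mul_nonneg hkε0
      have := mul_le_mul_of_nonneg_left hxz hγ
      linarith
    nlinarith

/-- the sum bound for subsets of up-closed parts of sets closed under gcd and lcm -/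
theorem dense_sums (k : ℕ) (ε : ℝ) (hε : 0 < ε) :
    ∃ γ c : ℝ, 0 < γ ∧ 0 < c ∧ ∀ (A : Fin k → Finset ℤ) (Λ V : Fin k → Finset ℕ) (B : Finset ℤ),
      (∀ i, ∀ a ∈ Λ i, 0 < a) →
      (∀ i, ∀ a ∈ Λ i, ∀ b ∈ Λ i, Nat.gcd a b ∈ Λ i ∧ Nat.lcm a b ∈ Λ i) →
      (∀ i, V i ⊆ Λ i) → (∀ i, ∀ a ∈ V i, ∀ b ∈ Λ i, a ∣ b → b ∈ V i) →
      (∀ i, (A i).Nonempty) → (∀ i, ∀ a ∈ A i, a.natAbs ∈ V i) → B.Nonempty →
      c * (∏ i, (((A i).card : ℝ) / (V i).card) ^ γ * ((A i).card : ℝ) ^ (1 - ε)) *
          (B.card : ℝ) ^ (1 - ε) ≤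
        ((((Fintype.piFinset A) ×ˢ B).image fun x => (∑ i, x.1 i) + x.2).card : ℝ) := by
  have hlog2 : 0 < Real.log 2 := Real.log_pos (by norm_num)
  set ε₁ : ℝ := min 1 ε / (k + 1) with hε₁
  have hε₁0 : 0 < ε₁ := by
    have : 0 < min 1 ε := lt_min one_pos hε
    positivity
  have hk0 : (0 : ℝ) ≤ k := by positivity
  have hkε₁ : (k + 1) * ε₁ = min 1 ε := by rw [hε₁]; field_simp
  have hm1 : min 1 ε ≤ 1 := min_le_left _ _
  have hmε : min 1 ε ≤ ε := min_le_right _ _
  have hε₁1 : ε₁ ≤ 1 := by nlinarith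
  obtain ⟨γ, C, hγ, hC, h⟩ := one_step ε₁ hε₁0 hε₁1
  set C' : ℝ := C + γ * Real.log 2 with hC'
  have h' := iterate (ε := ε₁) (γ := γ) (C := C') hε₁0.le hγ.le (by linarith)
    (fun Λ V hΛ hV A hAV hA B hB => le_trans
      (by have : 0 ≤ γ * Real.log 2 := by positivity
          linarith) (h Λ V hΛ hV A hAV hA B hB)) k (by linarith)
  refine ⟨γ, Real.exp (-(k * C')), hγ, Real.exp_pos _, ?_⟩
  intro A Λ V B hpos hcl hsub hup hA hAV hB
  have hΛ : ∀ i, Glc (Λ i) := fun i =>
    ⟨by obtain ⟨a, ha⟩ := hA i; exact ⟨_, hsub i (hAV i a ha)⟩, hpos i, hcl i⟩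
  have hmain := h' A Λ V B hΛ (fun i => ⟨hsub i, hup i⟩) hAV hA hB
  have cA : ∀ i, (0 : ℝ) < (A i).card := fun i => by exact_mod_cast (hA i).card_pos
  have cV : ∀ i, (0 : ℝ) < (V i).card := fun i => by
    obtain ⟨a, ha⟩ := hA i
    exact_mod_cast Finset.card_pos.2 ⟨_, hAV i a ha⟩
  have cB : (0 : ℝ) < B.card := by exact_mod_cast hB.card_pos
  have cS : (0 : ℝ) < (sums A B).card := by exact_mod_cast (sums_nonempty hA hB).card_pos
  have e1 : ∀ i, (((A i).card : ℝ) / (V i).card) ^ γ * ((A i).card : ℝ) ^ (1 - ε) =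
      Real.exp ((1 - ε) * Real.log (A i).card -
        γ * (Real.log (V i).card - Real.log (A i).card)) := by
    intro i
    rw [Real.rpow_def_of_pos (div_pos (cA i) (cV i)), Real.rpow_def_of_pos (cA i),
      ← Real.exp_add, Real.log_div (cA i).ne' (cV i).ne']
    congr 1
    ring
  have e2 : (B.card : ℝ) ^ (1 - ε) = Real.exp ((1 - ε) * Real.log B.card) := by
    rw [Real.rpow_def_of_pos cB]
    congr 1
    ring
  rw [Finset.prod_congr rfl fun i _ => e1 i, ← Real.exp_sum, e2, ← Real.exp_add,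
    ← Real.exp_add]
  show _ ≤ ((sums A B).card : ℝ)
  rw [← Real.le_log_iff_exp_le cS]
  refine le_trans ?_ hmain
  have hkε : (k : ℝ) * ε₁ ≤ ε := by linarith
  have h1 : ∑ i, ((1 - ε) * Real.log (A i).card -
        γ * (Real.log (V i).card - Real.log (A i).card)) - k * C' ≤
      ∑ i, ((1 - k * ε₁) * Real.log (A i).card -
        γ * (Real.log (V i).card - Real.log (A i).card) - C') := by
    rw [Finset.sum_sub_distrib (f := fun i => (1 - k * ε₁) * Real.log (A i).card -
        γ * (Real.log (V i).card - Real.log (A i).card)), Finset.sum_const, Finset.card_univ,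
      Fintype.card_fin, nsmul_eq_mul]
    refine sub_le_sub_right (Finset.sum_le_sum fun i _ => ?_) _
    have : 0 ≤ Real.log (A i).card := Real.log_natCast_nonneg _
    nlinarith
  have h2 : (1 - ε) * Real.log B.card ≤ (1 - k * ε₁) * Real.log B.card :=
    mul_le_mul_of_nonneg_right (by linarith) (Real.log_natCast_nonneg _)
  linarith

end Pool.Agent.T2h42.V
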