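import Pool.Agent.T2h42.V.Stm
import Pool.Agent.T2h42.R.Phase

/-!
The induction along a list of atoms, for up-closed sets.
-/

set_option autoImplicit false

namespace Pool.Agent.T2h42.V

open Finset
open Pool.Agent.T2h42.R hiding S_BLK S_INJ blk inj CL phase
open Pool.Agent.T2h42.Tree
open H633R5.FS (Psi Psi_nonneg Psi_one Psi_le Psi_le_log_two)

variable {Λ M W : Finset ℕ} {o p : ℕ} {L : List ℕ}

theorem Up.yes (h : Up M W) : Up (M.filter fun a => p ∣ a) (W.filter fun a => p ∣ a) := by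
  refine ⟨Finset.filter_subset_filter _ h.sub, fun a ha b hb hab => ?_⟩
  rw [Finset.mem_filter] at ha hb ⊢
  exact ⟨h.up a ha.1 b hb.1 hab, hb.2⟩

theorem Up.no (h : Up M W) : Up (M.filter fun a => ¬ p ∣ a) (W.filter fun a => ¬ p ∣ a) := by
  refine ⟨Finset.filter_subset_filter _ h.sub, fun a ha b hb hab => ?_⟩
  rw [Finset.mem_filter] at ha hb ⊢
  exact ⟨h.up a ha.1 b hb.1 hab, hb.2⟩

theorem Up.self (M : Finset ℕ) : Up M M := ⟨Finset.Subset.refl _, fun _ _ _ hb _ => hb⟩

theorem Up.card_le (hΛ : Glc Λ) (ho : o ∈ Λ) (hod : ∀ a ∈ Λ, o ∣ a) (hp : Atom Λ o p)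
    (h : Sub Λ o (p :: L) M) (hW : Up M W) :
    (W.filter fun a => ¬ p ∣ a).card ≤ (W.filter fun a => p ∣ a).card := by
  have hpo : 0 < p / o := by have := hΛ.one_lt ho hod hp; omega
  refine Finset.card_le_card_of_injOn (fun a => a * (p / o)) ?_ ?_
  · intro a ha
    rw [Finset.mem_coe, Finset.mem_filter] at ha
    rw [Finset.mem_coe, Finset.mem_filter]
    refine ⟨hW.up a ha.1 _ (h.tg a (hW.sub ha.1) p List.mem_cons_self ha.2)
      (Dvd.intro _ rfl), ?_⟩
    obtain ⟨a', ha'⟩ := hod a (h.sub (hW.sub ha.1))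
    obtain ⟨w, hw⟩ := hod p hp.1
    have ho0 : 0 < o := hΛ.pos ho
    have e1 : p / o = w := by rw [hw, Nat.mul_div_cancel_left _ ho0]
    show p ∣ a * (p / o)
    rw [e1, ha', hw]
    exact ⟨a', by ring⟩
  · intro a _ b _ hab
    exact Nat.eq_of_mul_eq_mul_right hpo hab

/-- an up-closed set and a set closed under divisors are negatively correlated -/
theorem Up.corr (hΛ : Glc Λ) (hW : Up Λ W) {D : Finset ℕ} (hD : D ⊆ Λ)
    (hDd : ∀ a ∈ D, ∀ b ∈ Λ, b ∣ a → b ∈ D) :
    (W ∩ D).card * Λ.card ≤ W.card * D.card := by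
  have h1 := hΛ.corr (F := Λ \ W) (G := D) Finset.sdiff_subset hD (by
    intro a ha b hb hba
    rw [Finset.mem_sdiff] at ha ⊢
    exact ⟨hb, fun hbW => ha.2 (hW.up b hbW a ha.1 hba)⟩) hDd
  have h2 : (Λ \ W).card + W.card = Λ.card := Finset.card_sdiff_add_card_eq_card hW.sub
  have h3 : ((Λ \ W) ∩ D).card + (W ∩ D).card = D.card := by
    have e : (Λ \ W) ∩ D = D \ (W ∩ D) := by
      ext x
      simp only [Finset.mem_inter, Finset.mem_sdiff]
      constructor
      · rintro ⟨⟨_, h⟩, h'⟩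
        exact ⟨h', fun h'' => h h''.1⟩
      · rintro ⟨h, h'⟩
        exact ⟨⟨hD h, fun h'' => h' ⟨h'', h⟩⟩, h⟩
    rw [e]
    exact Finset.card_sdiff_add_card_eq_card Finset.inter_subset_right
  zify at h1 h2 h3 ⊢
  nlinarith

/-- the claim at level `δ` -/
def CL (e δ γ C : ℝ) : Prop := ∀ M V : Finset ℕ, Glc M → Up M V → ∀ A : Finset ℕ, A ⊆ V →
  A.Nonempty → ∃ μ : ℕ → ℝ, Law A μ ∧ (∀ a, μ a * A.card ≤ Real.exp C) ∧
    Good e A μ ((1 + γ) * Real.log A.card - (γ + δ) * Real.log V.card - C)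

theorem phase (hS : S_SPLIT) {e δ γ C a y₀ τ β : ℝ} (he : 0 < e) (hδ : 0 < δ)
    (hγ : 1 ≤ γ) (ha : 1 - a ≤ δ / 2) (hy₀ : 0 < y₀) (hτ : 0 < τ) (hβ : 0 < β)
    (hloc : LocP a e y₀ τ β) (hCL : CL e δ γ C) {Λ : Finset ℕ} {o : ℕ} (hΛ : Glc Λ)
    (ho : o ∈ Λ) (hod : ∀ a ∈ Λ, o ∣ a) :
    ∀ L : List ℕ, L.Nodup → (∀ p ∈ L, Atom Λ o p) → ∀ M V : Finset ℕ, Sub Λ o L M →
    Up M V → ∀ A : Finset ℕ, A ⊆ V → A.Nonempty → ∀ Z : ℕ,
    (∀ b ∈ A, Z ≤ (L.filter fun p => ¬ p ∣ b).length) →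
    ∃ (μ : ℕ → ℝ) (F : List Bool → Finset ℕ), Law A μ ∧
      (∀ b, μ b * A.card ≤ Real.exp C) ∧ (∀ b, (F b).card ≤ ⌊1 / τ⌋₊) ∧
      Good e A μ ((1 + γ) * Real.log A.card - (γ + δ) * Real.log V.card - C +
        δ / 2 * Real.log 2 * Z - Real.log 2 / (y₀ * β) * ∑ b ∈ A, μ b * (hits F L b : ℝ)) := by
  have hlog2 : 0 < Real.log 2 := Real.log_pos (by norm_num)
  set C₁ : ℝ := Real.log 2 / (y₀ * β) with hC₁
  have hC₁0 : 0 < C₁ := by positivity
  intro L
  induction L with
  | nil =>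
    intro _ _ M V hM hV A hA hAn Z hZ
    obtain ⟨μ, h1, h2, h3⟩ := hCL M V (hM.glc hΛ (hAn.mono (hA.trans hV.sub))) hV A hA hAn
    refine ⟨μ, fun _ => ∅, h1, h2, fun _ => by simp, ?_⟩
    have hZ0 : Z = 0 := by
      obtain ⟨b, hb⟩ := hAn
      have := hZ b hb
      simpa using this
    have : ∑ b ∈ A, μ b * (hits (fun _ => ∅) [] b : ℝ) = 0 :=
      Finset.sum_eq_zero fun b _ => by simp [hits]
    rw [this, hZ0]
    refine h3.mono ?_
    simp
  | cons p L ih =>
    intro hnd hat M V hM hV A hA hAn Z hZ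
    have hnd' := (List.nodup_cons.1 hnd)
    have hat' : ∀ t ∈ L, Atom Λ o t := fun t ht => hat t (List.mem_cons_of_mem _ ht)
    have hp : Atom Λ o p := hat p List.mem_cons_self
    have hne : ∀ t ∈ L, Atom Λ o t ∧ t ≠ p := fun t ht =>
      ⟨hat' t ht, fun h => hnd'.1 (h ▸ ht)⟩
    have hpos : 0 < p := hΛ.pos hp.1
    have : NeZero p := ⟨hpos.ne'⟩
    set A₁ := A.filter fun b => p ∣ b with hA₁
    set A₀ := A.filter fun b => ¬ p ∣ b with hA₀
    set M₁ := M.filter fun b => p ∣ b with hM₁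
    set M₀ := M.filter fun b => ¬ p ∣ b with hM₀
    set V₁ := V.filter fun b => p ∣ b with hV₁
    set V₀ := V.filter fun b => ¬ p ∣ b with hV₀
    have sub1 : A₁ ⊆ V₁ := Finset.filter_subset_filter _ hA
    have sub0 : A₀ ⊆ V₀ := Finset.filter_subset_filter _ hA
    have hVy : Up M₁ V₁ := hV.yes
    have hVn : Up M₀ V₀ := hV.no
    have hMy : Sub Λ o L M₁ := hM.yes
    have hMn : Sub Λ o L M₀ := Sub.no hΛ ho hod hp hne hM
    have hMc : V₀.card ≤ V₁.card := Up.card_le hΛ ho hod hp hM hV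
    have hMs : V₁.card + V₀.card = V.card :=
      Finset.card_filter_add_card_filter_not (s := V) fun b => p ∣ b
    have hAs : A₁.card + A₀.card = A.card :=
      Finset.card_filter_add_card_filter_not (s := A) fun b => p ∣ b
    have hZ1 : ∀ b ∈ A₁, Z ≤ (L.filter fun q => ¬ q ∣ b).length := by
      intro b hb
      have hb' := Finset.mem_filter.1 hb
      have h1 := hZ b hb'.1
      rw [List.filter_cons_of_neg (by simpa using hb'.2)] at h1
      exact h1
    have hZ0 : ∀ b ∈ A₀, Z - 1 ≤ (L.filter fun q => ¬ q ∣ b).length := by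
      intro b hb
      have hb' := Finset.mem_filter.1 hb
      have h1 := hZ b hb'.1
      rw [List.filter_cons_of_pos (by simpa using hb'.2), List.length_cons] at h1
      omega
    have hZr : (Z : ℝ) - 1 ≤ ((Z - 1 : ℕ) : ℝ) := by
      have : Z ≤ (Z - 1) + 1 := by omega
      have h2 : (Z : ℝ) ≤ ((Z - 1 : ℕ) : ℝ) + 1 := by exact_mod_cast this
      linarith
    by_cases h0e : A₀.Nonempty
    swap
    · -- all members are divisible by `p`
      have hA0 : A₀ = ∅ := Finset.not_nonempty_iff_eq_empty.1 h0e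
      have hAA : A₁ = A := by
        refine Finset.filter_true_of_mem fun b hb => ?_
        by_contra hcon
        have : b ∈ A₀ := Finset.mem_filter.2 ⟨hb, hcon⟩
        rw [hA0] at this
        exact absurd this (Finset.notMem_empty b)
      obtain ⟨μ, F, h1, h2, h3, h4⟩ := ih hnd'.2 hat' M₁ V₁ hMy hVy A (hAA ▸ sub1) hAn Z
        (by rw [← hAA]; exact hZ1)
      refine ⟨μ, fun b => match b with | true :: b' => F b' | _ => ∅, h1, h2, ?_, ?_⟩
      · intro b
        rcases b with _ | ⟨_ | _, b'⟩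
        · simp
        · simp
        · exact h3 b'
      · refine h4.mono ?_
        have e1 : ∑ b ∈ A, μ b * (hits (fun b => match b with
            | true :: b' => F b' | _ => ∅) (p :: L) b : ℝ) = ∑ b ∈ A, μ b * (hits F L b : ℝ) := by
          refine Finset.sum_congr rfl fun b hb => ?_
          have hpb : p ∣ b := by
            rw [← hAA] at hb
            exact (Finset.mem_filter.1 hb).2
          rw [hits, if_pos hpb]
        rw [e1]
        have hM1n : V₁.Nonempty := hAn.mono (hAA ▸ sub1)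
        have h5 : Real.log V₁.card ≤ Real.log V.card :=
          Real.log_le_log (by exact_mod_cast hM1n.card_pos) (by exact_mod_cast (by omega))
        have h6 := mul_le_mul_of_nonneg_left h5 (by linarith : 0 ≤ γ + δ)
        linarith
    by_cases h1e : A₁.Nonempty
    swap
    · -- no member is divisible by `p`
      have hA1 : A₁ = ∅ := Finset.not_nonempty_iff_eq_empty.1 h1e
      have hAA : A₀ = A := by
        refine Finset.filter_true_of_mem fun b hb hcon => ?_
        have : b ∈ A₁ := Finset.mem_filter.2 ⟨hb, hcon⟩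
        rw [hA1] at this
        exact absurd this (Finset.notMem_empty b)
      obtain ⟨μ, F, h1, h2, h3, h4⟩ := ih hnd'.2 hat' M₀ V₀ hMn hVn A (hAA ▸ sub0) hAn (Z - 1)
        (by rw [← hAA]; exact hZ0)
      refine ⟨μ, fun b => match b with | false :: b' => F b' | _ => ∅, h1, h2, ?_, ?_⟩
      · intro b
        rcases b with _ | ⟨_ | _, b'⟩
        · simp
        · exact h3 b'
        · simp
      · refine h4.mono ?_
        have e1 : ∑ b ∈ A, μ b * (hits (fun b => match b with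
            | false :: b' => F b' | _ => ∅) (p :: L) b : ℝ) = ∑ b ∈ A, μ b * (hits F L b : ℝ) := by
          refine Finset.sum_congr rfl fun b hb => ?_
          have hpb : ¬ p ∣ b := by
            rw [← hAA] at hb
            exact (Finset.mem_filter.1 hb).2
          rw [hits, if_neg hpb]
          simp
        rw [e1]
        have hM0n : V₀.Nonempty := hAn.mono (hAA ▸ sub0)
        have c0 : (0 : ℝ) < V₀.card := by exact_mod_cast hM0n.card_pos
        have h5 : Real.log V₀.card + Real.log 2 ≤ Real.log V.card := by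
          rw [← Real.log_mul c0.ne' (by norm_num)]
          refine Real.log_le_log (by positivity) ?_
          exact_mod_cast (by omega : V₀.card * 2 ≤ V.card)
        have h6 := mul_le_mul_of_nonneg_left h5 (by linarith : 0 ≤ γ + δ)
        have h7 := mul_le_mul_of_nonneg_left hZr (by positivity : 0 ≤ δ / 2 * Real.log 2)
        nlinarith
    -- both parts are nonempty
    obtain ⟨μ₁, F₁, l1, b1, f1, g1⟩ := ih hnd'.2 hat' M₁ V₁ hMy hVy A₁ sub1 h1e Z hZ1
    obtain ⟨μ₀, F₀, l0, b0, f0, g0⟩ := ih hnd'.2 hat' M₀ V₀ hMn hVn A₀ sub0 h0e (Z - 1) hZ0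
    have hd : Disjoint A₁ A₀ := Finset.disjoint_filter_filter_not _ _ _
    have hun : A₁ ∪ A₀ = A := Finset.filter_union_filter_not_eq _ A
    have c1 : (0 : ℝ) < A₁.card := by exact_mod_cast h1e.card_pos
    have c0 : (0 : ℝ) < A₀.card := by exact_mod_cast h0e.card_pos
    have cs : (A₁.card : ℝ) + A₀.card = A.card := by exact_mod_cast hAs
    have cA : (0 : ℝ) < A.card := by linarith
    have d1 : (0 : ℝ) < V₁.card := by exact_mod_cast (h1e.mono sub1).card_pos
    have d0 : (0 : ℝ) < V₀.card := by exact_mod_cast (h0e.mono sub0).card_pos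
    have ds : (V₁.card : ℝ) + V₀.card = V.card := by exact_mod_cast hMs
    have dc : (V₀.card : ℝ) ≤ V₁.card := by exact_mod_cast hMc
    set x : ℝ := A₁.card / A.card with hx
    have hx' : 1 - x = A₀.card / A.card := by rw [hx]; field_simp; linarith
    have hx0 : 0 < x := by positivity
    have hy0 : 0 < 1 - x := by rw [hx']; positivity
    have hx1 : x < 1 := by linarith
    have q0 : ∀ a ∈ A₀, ¬ p ∣ a := fun a ha => (Finset.mem_filter.1 ha).2
    have q1 : ∀ a ∈ A₁, p ∣ a := fun a ha => (Finset.mem_filter.1 ha).2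
    set ξ : ZMod p → ℝ := res p A₀ μ₀ with hξ
    have hξz : ξ 0 = 0 := res_zero q0
    have hξp : PD ξ := res_pd l0
    have hPsi0 : 0 ≤ Psi x (1 - x) := Psi_nonneg hx0.le hy0.le
    -- the gain at the node and the set of residues
    obtain ⟨g, Hv, hg, hHv, hcase⟩ : ∃ (g : ℝ) (Hv : Finset ℕ),
        (∀ w : ZMod p → ℝ, PD w → g ≤ Inf x w ξ + e * x * Hw w) ∧ Hv.card ≤ ⌊1 / τ⌋₊ ∧
        (a * Psi x (1 - x) ≤ g ∨
          (0 ≤ g ∧ Psi x (1 - x) ≤ C₁ * ((1 - x) *
            ∑ b ∈ A₀, μ₀ b * (if b % p ∈ Hv then (1 : ℝ) else 0))) ∨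
          (0 ≤ g ∧ 2 * Psi x (1 - x) ≤ (1 - x) * Real.log 2)) := by
      rcases lt_or_ge x (1 / 16) with hs | hs
      · exact ⟨0, ∅, fun w hw => (hloc p w ξ hw hξp hξz x hx0 hx1).1, by simp,
          Or.inr (Or.inr ⟨le_rfl, small_x hx0 hs⟩)⟩
      rcases le_or_gt (1 - y₀) x with hn | hn
      · exact ⟨a * Psi x (1 - x), ∅, fun w hw => (hloc p w ξ hw hξp hξz x hx0 hx1).2.1 hn,
          by simp, Or.inl le_rfl⟩
      rcases lt_or_ge (∑ c, (if τ ≤ ξ c then ξ c else 0)) β with hm | hm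
      · exact ⟨a * Psi x (1 - x), ∅, fun w hw => (hloc p w ξ hw hξp hξz x hx0 hx1).2.2 hs hm,
          by simp, Or.inl le_rfl⟩
      · refine ⟨0, heavy p A₀ μ₀ τ, fun w hw => (hloc p w ξ hw hξp hξz x hx0 hx1).1,
          heavy_card l0 hτ, Or.inr (Or.inl ⟨le_rfl, ?_⟩)⟩
        rw [heavy_mass]
        refine (Psi_le_log_two hx0.le hx1.le).trans ?_
        have h1 : y₀ * β ≤ (1 - x) * ∑ c, (if τ ≤ ξ c then ξ c else 0) :=
          mul_le_mul (by linarith) hm hβ.le hy0.le
        have h2 := mul_le_mul_of_nonneg_left h1 hC₁0.le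
        have h3 : C₁ * (y₀ * β) = Real.log 2 := by rw [hC₁]; field_simp
        rw [h3] at h2
        exact h2
    set P : ℝ := ∑ b ∈ A₀, μ₀ b * (if b % p ∈ Hv then (1 : ℝ) else 0) with hP
    have hP0 : 0 ≤ P := Finset.sum_nonneg fun b _ => mul_nonneg (l0.nn b) (by split_ifs <;> simp)
    obtain ⟨G, hG1, hG0, hGn, hGc⟩ : ∃ G : List Bool → Finset ℕ, (fun b => G (true :: b)) = F₁ ∧
        (fun b => G (false :: b)) = F₀ ∧ G [] = Hv ∧ ∀ b, (G b).card ≤ ⌊1 / τ⌋₊ := by
      refine ⟨fun b => match b with | true :: b' => F₁ b' | false :: b' => F₀ b' | [] => Hv,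
        rfl, rfl, rfl, ?_⟩
      intro b
      rcases b with _ | ⟨_ | _, b'⟩
      · exact hHv
      · exact f0 b'
      · exact f1 b'
    refine ⟨fun a => x * μ₁ a + (1 - x) * μ₀ a, G, ?_, ?_, hGc, ?_⟩
    · rw [← hun]
      exact mix_law l1 l0 hd hx0.le hx1.le
    · exact mix_le l1 l0 hd cA hx hx' b1 b0
    · have hmain := hS e he A₁ A₀ μ₁ μ₀ l1 l0 p q1 q0 x _ _ g hx0 hx1 g1 g0 hg
      rw [hun] at hmain
      refine hmain.mono ?_
      have e1 : ∑ b ∈ A, (fun a => x * μ₁ a + (1 - x) * μ₀ a) b * (hits G (p :: L) b : ℝ) =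
          x * ∑ b ∈ A₁, μ₁ b * (hits F₁ L b : ℝ) +
          (1 - x) * (P + ∑ b ∈ A₀, μ₀ b * (hits F₀ L b : ℝ)) := by
        have e2 := sum_mix l1 l0 hd x (fun b => (hits G (p :: L) b : ℝ))
        rw [hun] at e2
        refine e2.trans ?_
        congr 1
        · congr 1
          refine Finset.sum_congr rfl fun b hb => ?_
          show μ₁ b * (hits G (p :: L) b : ℝ) = _
          rw [hits, if_pos (q1 b hb), hG1]
        · congr 1
          rw [hP, ← Finset.sum_add_distrib]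
          refine Finset.sum_congr rfl fun b hb => ?_
          show μ₀ b * (hits G (p :: L) b : ℝ) = _
          rw [hits, if_neg (q0 b hb), hG0, hGn]
          push_cast
          ring
      rw [e1]
      refine node_num hγ hδ ha hx0 hx1 hPsi0 (ent_id c1 c0 cs hx) (gibbs d1 d0 ds hx0 hx1) ?_ ?_
        hC₁0.le hP0 hZr hcase
      · exact Real.log_le_log d1 (by linarith)
      · rw [← Real.log_mul d0.ne' (by norm_num)]
        exact Real.log_le_log (by positivity) (by linarith)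

end Pool.Agent.T2h42.V
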