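import Pool.Agent.T2h42.R.Blk
import Pool.Agent.T2h42.R.Inj
import Pool.Agent.T2h42.R.Ent
import Pool.Agent.T2h42.R.Pre

/-!
The injection for up-closed subsets of a lattice.
-/

set_option autoImplicit false

namespace Pool.Agent.T2h42.V

open Finset
open Pool.Agent.T2h42.R
open Pool.Agent.T2h42.Tree (Glc Atom toInt)

/-- `V` is an up-closed part of `Λ` -/
structure Up (Λ V : Finset ℕ) : Prop where
  sub : V ⊆ Λ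
  up : ∀ a ∈ V, ∀ b ∈ Λ, a ∣ b → b ∈ V

def S_BLK : Prop := ∀ (Λ V : Finset ℕ) (o : ℕ), Glc Λ → Up Λ V → o ∈ Λ → (∀ a ∈ Λ, o ∣ a) →
  ∀ L₁ L₂ L₃ : List ℕ, (L₁ ++ L₂ ++ L₃).Pairwise (fun p q => q < p) →
  (∀ p ∈ L₁ ++ L₂ ++ L₃, Atom Λ o p) →
  ∀ (F : List Bool → Finset ℕ) (K : ℕ), (∀ b, (F b).card ≤ K) → ∀ r M : ℕ, 1 ≤ r →
  (V.filter fun a => r ≤ hits (fun b => F (bits L₁ a ++ b)) L₂ a ∧
      M * L₂.length ≤ (L₃.filter fun p => ¬ p ∣ a).length).card * M ^ r ≤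
    V.card * (K + 1) ^ L₂.length

def S_INJ : Prop := ∀ (δ : ℝ) (K : ℕ), 0 < δ → ∃ (c : ℝ) (m₀ : ℕ), 0 < c ∧
  ∀ (Λ V : Finset ℕ) (o : ℕ), Glc Λ → Up Λ V → o ∈ Λ → (∀ a ∈ Λ, o ∣ a) →
  ∀ L : List ℕ, L.Pairwise (fun p q => q < p) → (∀ p ∈ L, Atom Λ o p) → m₀ ≤ L.length →
  ∀ (F : List Bool → Finset ℕ), (∀ b, (F b).card ≤ K) →
  ((V.filter fun a => δ * L.length ≤ (hits F L a : ℝ)).card : ℝ) ≤
    V.card * Real.exp (-(c * L.length))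

end Pool.Agent.T2h42.V
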